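import Pool.Agent.H50.NC.Targets

/-!
# MP_816b90_co, row LTW: a connected set such that every vertex sees at most one rung
-/

set_option autoImplicit false

namespace Pool.Agent.H35.NCK

open Pool.Agent.H48.ER Pool.Agent.H50.NC

variable {V : Type}

/-- the core: a path which sees the rung `i` (not only at `a i`) and whose last vertex sees exactly
the rung `j`, including the corner `a j` -/
theorem core {G : SimpleGraph V} {a b : Fin 3 → V} {n : Fin 3 → ℕ} {P : Fin 3 → Set V}
    (hH : NOH G) (hN : NOP G) (hP : Prism G a b n P) (hev : ∀ m, Even (n m))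
    {i j k : Fin 3} (hij : i ≠ j) (hik : i ≠ k) (hjk : j ≠ k)
    {l : ℕ} {d z : V} {R0 : Set V} (hR0 : IP G l d z R0) (hout : ∀ r ∈ R0, r ∉ ver P)
    (hsee : ∀ r ∈ R0, ∀ m, m ≠ i → ∀ v ∈ P m, G.Adj r v → r = z ∧ m = j)
    (hzi : ∀ v ∈ P i, ¬ G.Adj z v) (hzj : G.Adj z (a j))
    {g : V} (hg : g ∈ P i) (hga : g ≠ a i) (hdg : G.Adj d g) : False := by
  -- the last vertex `s`
  obtain ⟨t, q, s, R, R', hR, -, hsZ, -, hRR, -, -, hRl⟩ := c_FST V G l z d R0
    {r | ∃ v ∈ P i, v ≠ a i ∧ G.Adj r v} hR0.rev ⟨d, hR0.left_mem, g, hg, hga, hdg⟩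
  obtain ⟨v0, hv0, hv0a, hsv0⟩ := hsZ
  have hRR0 : R ⊆ R0 := by
    rw [← hRR]; exact Set.subset_union_left
  have hsz : z ≠ s := by
    rintro rfl
    exact hzi v0 hv0 hsv0
  have ht : 1 ≤ t := by
    rcases Nat.eq_zero_or_pos t with h | h
    · subst h
      exact absurd hR.eq_of_zero.1 hsz
    · exact h
  have hRi : ∀ r ∈ R, ∀ v ∈ P i, v ≠ a i → G.Adj r v → r = s := fun r hr v hv hva hrv =>
    hRl r hr ⟨v, hv, hva, hrv⟩
  have hsnz : ∀ m, m ≠ i → ∀ v ∈ P m, ∀ r ∈ R, G.Adj r v → r = z ∧ m = j :=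
    fun m hm v hv r hr h => hsee r (hRR0 hr) m hm v hv h
  have hRout : ∀ r ∈ R, ∀ m, ∀ v ∈ P m, r ≠ v := fun r hr m v hv e =>
    hout r (hRR0 hr) (e ▸ mem_ver hv)
  -- the neighbour `w` of `s` nearest to `b i`
  obtain ⟨d1, q1, w, W, W', hW, hW', hwZ, -, hWW, hWi, -, hWl⟩ := c_FST V G (n i) (b i) (a i)
    (P i) {v | G.Adj s v} (hP.ip i).rev ⟨v0, hv0, hsv0⟩
  have hsw : G.Adj s w := hwZ
  have hWP : W ⊆ P i := by
    rw [← hWW]; exact Set.subset_union_left
  have hwa : w ≠ a i := by
    rintro e
    have hv1 : v0 ∈ W ∪ W' := by rw [hWW]; exact hv0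
    rcases hv1 with h | h
    · exact hv0a ((hWl v0 h hsv0).trans e)
    · rcases Nat.eq_zero_or_pos q1 with h0 | h0
      · subst h0
        rw [hW'.eq_of_zero.2] at h
        exact hv0a ((Set.mem_singleton_iff.1 h).trans e)
      · exact hW'.ne h0 e
  have haW : a i ∉ W := by
    intro h
    have : a i ∈ W ∩ W' := ⟨h, hW'.right_mem⟩
    rw [hWi] at this
    exact hwa (Set.mem_singleton_iff.1 this).symm
  -- the neighbour `wj` of `z` nearest to `b j`
  obtain ⟨d2, e2, wj, J, J', hJ, hJ', hwjZ, hde, hJJ, hJi, hJN, hJl⟩ := c_FST V G (n j) (b j) (a j)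
    (P j) {v | G.Adj z v} (hP.ip j).rev ⟨a j, hP.a_mem j, hzj⟩
  have hzw : G.Adj z wj := hwjZ
  have hJP : J ⊆ P j := by
    rw [← hJJ]; exact Set.subset_union_left
  -- edges between `R` and `W`
  have hRW : ∀ r ∈ R, ∀ v ∈ W, G.Adj r v ↔ r = s ∧ v = w := by
    intro r hr v hv
    constructor
    · intro h
      have h1 := hRi r hr v (hWP hv) (fun e => haW (e ▸ hv)) h
      subst h1
      exact ⟨rfl, hWl v hv h⟩
    · rintro ⟨rfl, rfl⟩
      exact hsw
  have hRJ : ∀ r ∈ R, ∀ v ∈ J, G.Adj r v ↔ r = z ∧ v = wj := by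
    intro r hr v hv
    constructor
    · intro h
      have h1 := (hsnz j hij.symm v (hJP hv) r hr h).1
      subst h1
      exact ⟨rfl, hJl v hv h⟩
    · rintro ⟨rfl, rfl⟩
      exact hzw
  have hRk : ∀ r ∈ R, ∀ v ∈ P k, ¬ G.Adj r v := fun r hr v hv h =>
    hjk (hsnz k hik.symm v hv r hr h).2.symm
  have hRaj : ∀ r ∈ R, G.Adj r (a j) ↔ r = z := by
    intro r hr
    constructor
    · intro h
      exact (hsnz j hij.symm (a j) (hP.a_mem j) r hr h).1
    · rintro rfl
      exact hzj
  have hJW : ∀ u ∈ J, ∀ v ∈ W, G.Adj u v ↔ u = b j ∧ v = b i := by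
    intro u hu v hv
    rw [hP.adj j i hij.symm u (hJP hu) v (hWP hv)]
    constructor
    · rintro (⟨_, rfl⟩ | h)
      · exact absurd hv haW
      · exact h
    · exact Or.inr
  have hkW : ∀ u ∈ P k, ∀ v ∈ W, G.Adj u v ↔ u = b k ∧ v = b i := by
    intro u hu v hv
    rw [hP.adj k i hik.symm u hu v (hWP hv)]
    constructor
    · rintro (⟨_, rfl⟩ | h)
      · exact absurd hv haW
      · exact h
    · exact Or.inr
  have hajW : ∀ v ∈ W, ¬ G.Adj (a j) v := by
    intro v hv h
    rw [hP.adj j i hij.symm _ (hP.a_mem j) v (hWP hv)] at h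
    rcases h with ⟨_, rfl⟩ | ⟨h, _⟩
    · exact haW hv
    · exact hP.a_ne_b j j h
  have hajk : ∀ v ∈ P k, G.Adj (a j) v ↔ v = a k := by
    intro v hv
    rw [hP.adj j k hjk _ (hP.a_mem j) v hv]
    constructor
    · rintro (h | h)
      · exact h.2
      · exact absurd h.1 (hP.a_ne_b j j)
    · intro h
      exact Or.inl ⟨rfl, h⟩
  have hnk := hev k
  have hnj := hev j
  -- hole A
  have hA : Even (t + (d2 + d1 + 1)) := by
    refine c_HOL V G t (d2 + d1 + 1) z s wj w R (J ∪ W) hH hR
      (hJ.rev.append hW ?_ ?_) ?_ ?_ (by omega)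
    · rw [Set.disjoint_left]
      intro v hv hv'
      exact hP.ne_of_mem hij.symm (hJP hv) (hWP hv') rfl
    · intro u hu v hv
      exact hJW u hu v hv
    · rw [Set.disjoint_left]
      rintro r hr (h | h)
      · exact hRout r hr j r (hJP h) rfl
      · exact hRout r hr i r (hWP h) rfl
    · rintro r hr v (hv | hv)
      · rw [hRJ r hr v hv]
        constructor
        · exact Or.inl
        · rintro (h | ⟨rfl, rfl⟩)
          · exact h
          · exact absurd (hWP hW.right_mem) (fun h => hP.ne_of_mem hij h (hJP hv) rfl)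
      · rw [hRW r hr v hv]
        constructor
        · exact Or.inr
        · rintro (⟨rfl, rfl⟩ | h)
          · exact absurd (hJP hJ.right_mem) (fun h => hP.ne_of_mem hij (hWP hv) h rfl)
          · exact h
  -- hole B
  have hpk : IP G (n k + d1 + 1) (a k) w (P k ∪ W) := by
    refine (hP.ip k).append hW ?_ ?_
    · rw [Set.disjoint_left]
      intro v hv hv'
      exact hP.ne_of_mem hik.symm hv (hWP hv') rfl
    · intro u hu v hv
      exact hkW u hu v hv
  have hB : Even (t + (n k + d1 + 1 + 1)) := by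
    refine c_HOL V G t (n k + d1 + 1 + 1) z s (a j) w R (insert (a j) (P k ∪ W)) hH hR
      (hpk.cons ?_ ?_) ?_ ?_ (by omega)
    · rintro (h | h)
      · exact hP.ne_of_mem hjk (hP.a_mem j) h rfl
      · exact hP.ne_of_mem hij.symm (hP.a_mem j) (hWP h) rfl
    · rintro v (hv | hv)
      · exact hajk v hv
      · constructor
        · intro h
          exact absurd h (hajW v hv)
        · rintro rfl
          exact absurd (hWP hv) (fun h => hP.ne_of_mem hik h (hP.a_mem k) rfl)
    · rw [Set.disjoint_left]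
      rintro r hr (h | h | h)
      · exact hRout r hr j (a j) (hP.a_mem j) h
      · exact hRout r hr k r h rfl
      · exact hRout r hr i r (hWP h) rfl
    · rintro r hr v (hv | hv | hv)
      · subst hv
        rw [hRaj r hr]
        constructor
        · intro h
          exact Or.inl ⟨h, rfl⟩
        · rintro (h | ⟨_, h⟩)
          · exact h.1
          · exact absurd h (hP.ne_of_mem hij.symm (hP.a_mem j) (hWP hW.right_mem))
      · constructor
        · intro h
          exact absurd h (hRk r hr v hv)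
        · rintro (⟨_, h⟩ | ⟨_, h⟩)
          · exact absurd h.symm (hP.ne_of_mem hjk (hP.a_mem j) hv)
          · exact absurd h.symm (hP.ne_of_mem hik (hWP hW.right_mem) hv)
      · rw [hRW r hr v hv]
        constructor
        · exact Or.inr
        · rintro (⟨_, h⟩ | h)
          · exact absurd h.symm (hP.ne_of_mem hij.symm (hP.a_mem j) (hWP hv))
          · exact h
  have hd2 : Odd d2 := by
    rw [Nat.even_iff] at hA hB hnk
    rw [Nat.odd_iff]
    omega
  have hwja : wj ≠ a j := by
    intro e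
    have : e2 = 0 := by
      rcases Nat.eq_zero_or_pos e2 with h0 | h0
      · exact h0
      · exact absurd e (hJ'.ne h0)
    rw [Nat.odd_iff] at hd2
    rw [Nat.even_iff] at hnj
    omega
  have hajJ : a j ∉ J := by
    intro h
    have : a j ∈ J ∩ J' := ⟨h, hJ'.right_mem⟩
    rw [hJi] at this
    exact hwja (Set.mem_singleton_iff.1 this).symm
  have hajJ' : ∀ v ∈ J, G.Adj (a j) v → v = wj := by
    intro v hv h
    by_contra hne
    exact hJN v ⟨hv, hne⟩ (a j) ⟨hJ'.right_mem, fun h => hwja (Set.mem_singleton_iff.1 h).symm⟩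
      h.symm
  have hJk : ∀ u ∈ J, ∀ v ∈ P k, G.Adj u v ↔ u = b j ∧ v = b k := by
    intro u hu v hv
    rw [hP.adj j k hjk u (hJP hu) v hv]
    constructor
    · rintro (⟨rfl, _⟩ | h)
      · exact absurd hu hajJ
      · exact h
    · exact Or.inr
  by_cases hadj : G.Adj wj (a j)
  · -- odd prism
    have p2 : IP G (n k + 1) (a j) (b k) (insert (a j) (P k)) := by
      refine (hP.ip k).cons ?_ hajk
      intro h
      exact hP.ne_of_mem hjk (hP.a_mem j) h rfl
    have p3 : IP G (t + d1 + 1) z (b i) (R ∪ W) := by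
      refine hR.append hW.rev ?_ ?_
      · rw [Set.disjoint_left]
        intro r hr h
        exact hRout r hr i r (hWP h) rfl
      · intro r hr v hv
        exact hRW r hr v hv
    have hpr := mk3 hJ.rev p2 p3 (by rw [Nat.odd_iff] at hd2; omega) (by omega) (by omega)
      (by
        rw [Set.disjoint_left]
        rintro v hv (h | h)
        · exact hajJ (h ▸ hv)
        · exact hP.ne_of_mem hjk (hJP hv) h rfl)
      (by
        rw [Set.disjoint_left]
        rintro v hv (h | h)
        · exact hRout v h j v (hJP hv) rfl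
        · exact hP.ne_of_mem hij.symm (hJP hv) (hWP h) rfl)
      (by
        rw [Set.disjoint_left]
        rintro v (hv | hv) (h | h)
        · exact hRout v h j (a j) (hP.a_mem j) hv
        · exact hP.ne_of_mem hij.symm (hP.a_mem j) (hWP h) hv.symm
        · exact hRout v h k v hv rfl
        · exact hP.ne_of_mem hik.symm hv (hWP h) rfl)
      (by
        rintro u hu v (hv | hv)
        · subst hv
          constructor
          · intro h
            exact Or.inl ⟨hajJ' u hu h.symm, rfl⟩
          · rintro (⟨rfl, _⟩ | ⟨_, h⟩)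
            · exact hadj
            · exact absurd h (hP.a_ne_b j k)
        · rw [hJk u hu v hv]
          constructor
          · exact Or.inr
          · rintro (⟨_, h⟩ | h)
            · exact absurd h.symm (hP.ne_of_mem hjk (hP.a_mem j) hv)
            · exact h)
      (by
        rintro u hu v (hv | hv)
        · rw [SimpleGraph.adj_comm, hRJ v hv u hu]
          constructor
          · rintro ⟨h1, h2⟩
            exact Or.inl ⟨h2, h1⟩
          · rintro (⟨h1, h2⟩ | ⟨_, h⟩)
            · exact ⟨h2, h1⟩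
            · exact absurd h (hRout v hv i (b i) (hP.b_mem i))
        · rw [hJW u hu v hv]
          constructor
          · exact Or.inr
          · rintro (⟨_, h⟩ | h)
            · exact absurd h.symm (hRout z hR.left_mem i v (hWP hv))
            · exact h)
      (by
        rintro u (hu | hu) v (hv | hv)
        · subst hu
          rw [SimpleGraph.adj_comm, hRaj v hv]
          constructor
          · intro h
            exact Or.inl ⟨rfl, h⟩
          · rintro (⟨_, h⟩ | ⟨h, _⟩)
            · exact h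
            · exact absurd h (hP.a_ne_b j k)
        · subst hu
          constructor
          · intro h
            exact absurd h (hajW v hv)
          · rintro (⟨_, h⟩ | ⟨h, _⟩)
            · exact absurd h.symm (hRout z hR.left_mem i v (hWP hv))
            · exact absurd h (hP.a_ne_b j k)
        · constructor
          · intro h
            exact absurd h.symm (hRk v hv u hu)
          · rintro (⟨h, _⟩ | ⟨_, h⟩)
            · exact absurd h.symm (hP.ne_of_mem hjk (hP.a_mem j) hu)
            · exact absurd h (hRout v hv i (b i) (hP.b_mem i))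
        · rw [hkW u hu v hv]
          constructor
          · exact Or.inr
          · rintro (⟨h, _⟩ | h)
            · exact absurd h.symm (hP.ne_of_mem hjk (hP.a_mem j) hu)
            · exact h)
    refine hN.mk3 hpr ⟨hd2, ?_, ?_⟩
    · rw [Nat.even_iff] at hnk
      rw [Nat.odd_iff]
      omega
    · rw [Nat.even_iff] at hB hnk
      rw [Nat.odd_iff]
      omega
  · -- hole C
    have hq : IP G (d2 + n k + 1) wj (a k) (J ∪ P k) := by
      refine hJ.rev.append (hP.ip k).rev ?_ ?_
      · rw [Set.disjoint_left]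
        intro v hv h
        exact hP.ne_of_mem hjk (hJP hv) h rfl
      · intro u hu v hv
        exact hJk u hu v hv
    have hq2 : IP G (d2 + n k + 1 + 1) wj (a j) (insert (a j) (J ∪ P k)) := by
      refine hq.snoc ?_ ?_
      · rintro (h | h)
        · exact hajJ h
        · exact hP.ne_of_mem hjk (hP.a_mem j) h rfl
      · rintro v (hv | hv)
        · constructor
          · intro h
            have := hajJ' v hv h
            subst this
            exact absurd h.symm hadj
          · rintro rfl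
            exact absurd (hJP hv) (fun h => hP.ne_of_mem hjk h (hP.a_mem k) rfl)
        · exact hajk v hv
    have hC := hH _ wj (a j) z _ hq2 (by omega) (by
      rintro (h | h | h)
      · exact hRout z hR.left_mem j (a j) (hP.a_mem j) h
      · exact hRout z hR.left_mem j z (hJP h) rfl
      · exact hRout z hR.left_mem k z h rfl) hzw hzj (by
      rintro v (hv | hv | hv) h
      · exact Or.inr hv
      · exact Or.inl (hJl v hv h)
      · exact absurd h (hRk z hR.left_mem v hv))
    rw [Nat.even_iff] at hC hnk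
    rw [Nat.odd_iff] at hd2
    omega

/-- the third index -/
theorem third {i j : Fin 3} (hij : i ≠ j) : ∃ k : Fin 3, i ≠ k ∧ j ≠ k := by
  revert i j
  decide

theorem pf_LTW (hCN2 : T_CN2) : T_LTW := by
  intro V G a b n P D i j d d' g h hH hN hE hD hDo hD1 hij hd hg hga hgb hdg hd' hh hdh
  have hP := hE.1
  obtain ⟨l, Q, hQ, hQD⟩ := c_CON V G D d d' hD hd hd'
  -- the first vertex `z` which sees a rung different from `i`
  obtain ⟨p, q, z, R0, R0', hR0, -, hzZ, -, hRQ, -, -, hRl⟩ := c_FST V G l d d' Q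
    {r | ∃ m, m ≠ i ∧ ∃ v ∈ P m, G.Adj r v} hQ ⟨d', hQ.right_mem, j, hij.symm, h, hh, hdh⟩
  obtain ⟨m, hmi, v, hv, hzv⟩ := hzZ
  have hRD : R0 ⊆ D := fun r hr => hQD (by rw [← hRQ]; exact Or.inl hr)
  have hzD : z ∈ D := hRD hR0.right_mem
  have hout : ∀ r ∈ R0, r ∉ ver P := fun r hr => hDo r (hRD hr)
  have hsee : ∀ r ∈ R0, ∀ m', m' ≠ i → ∀ v ∈ P m', G.Adj r v → r = z ∧ m' = m := by
    intro r hr m' hm' v' hv' hrv
    have e := hRl r hr ⟨m', hm', v', hv', hrv⟩
    subst e
    exact ⟨rfl, hD1 r hzD m' m v' v hv' hv hrv hzv⟩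
  have hzi : ∀ u ∈ P i, ¬ G.Adj z u := by
    intro u hu hzu
    exact hmi (hD1 z hzD m i v u hv hu hzv hzu)
  -- the last vertex which sees `P i`
  obtain ⟨t, q1, s, R, R', hR, -, hsZ, -, hRR, -, -, hRl2⟩ := c_FST V G p z d R0
    {r | ∃ v ∈ P i, G.Adj r v} hR0.rev ⟨d, hR0.left_mem, g, hg, hdg⟩
  obtain ⟨u, hu, hsu⟩ := hsZ
  have hRR0 : R ⊆ R0 := by
    rw [← hRR]; exact Set.subset_union_left
  have hC : Cnr G P i m t s z R := by
    refine ⟨hR.rev, fun r hr => hout r (hRR0 hr), ?_⟩
    rintro r hr g' ⟨m', hg'⟩ hrg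
    by_cases e : m' = i
    · subst e
      exact Or.inl ⟨hRl2 r hr ⟨g', hg', hrg⟩, hg'⟩
    · obtain ⟨h1, h2⟩ := hsee r (hRR0 hr) m' e g' hg' hrg
      subst h2
      exact Or.inr ⟨h1, hg'⟩
  obtain ⟨k, hik, hmk⟩ := third hmi.symm
  rcases hCN2 V G a b n P i m t s z u v R hH hN hE hmi.symm hC hu hsu hv hzv with h1 | h1
  · exact core hH hN hP hE.2 hmi.symm hik hmk hR0 hout hsee hzi h1.2 hg hga hdg
  · exact core hH hN hP.flip hE.2 hmi.symm hik hmk hR0 hout hsee hzi h1.2 hg hgb hdg

end Pool.Agent.H35.NCK
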